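import Pool.Agent.Helper46.K3.Basic

/-! # Quadruples: subsets and ordered tuples -/

set_option autoImplicit false

namespace K4

open Finset

theorem cnt_succ_le {n : ℕ} (g : Fin n → ℝ) (c : ℝ) (k : ℕ) :
    (k + 1) * K3.cnt c (k + 1) g univ ≤ ∑ a : Fin n, K3.cnt (c - g a) k g univ := by
  classical
  unfold K3.cnt
  set P := ((univ : Finset (Fin n)).powersetCard (k + 1)).filter (fun V => c ≤ ∑ i ∈ V, g i)
    with hP
  have h1 : (k + 1) * P.card = (P.sigma (fun V => V)).card := by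
    rw [card_sigma, sum_const_nat (m := k + 1)]
    · ring
    · intro V hV
      rw [hP, mem_filter, mem_powersetCard] at hV
      exact hV.1.2
  have h2 : ∑ a : Fin n, (((univ : Finset (Fin n)).powersetCard k).filter
      (fun V => c - g a ≤ ∑ i ∈ V, g i)).card
      = ((univ : Finset (Fin n)).sigma (fun a => ((univ : Finset (Fin n)).powersetCard k).filter
      (fun V => c - g a ≤ ∑ i ∈ V, g i))).card := by
    rw [card_sigma]
  rw [h1, h2]
  apply card_le_card_of_injOn (fun p => (⟨p.2, p.1.erase p.2⟩ : (_ : Fin n) × Finset (Fin n)))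
  · rintro ⟨V, a⟩ hV
    simp only [mem_coe, mem_sigma] at hV
    obtain ⟨hV, ha⟩ := hV
    rw [hP, mem_filter, mem_powersetCard] at hV
    simp only [mem_coe, mem_sigma, mem_univ, true_and, mem_filter, mem_powersetCard]
    refine ⟨⟨subset_univ _, ?_⟩, ?_⟩
    · rw [card_erase_of_mem ha, hV.1.2]; rfl
    · have := add_sum_erase V g ha
      linarith [hV.2]
  · rintro ⟨V, a⟩ hV ⟨W, b⟩ hW h
    simp only [mem_coe, mem_sigma] at hV hW
    simp only [Sigma.mk.injEq, heq_eq_eq] at h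
    obtain ⟨rfl, h⟩ := h
    have : V = W := by rw [← insert_erase hV.2, ← insert_erase hW.2, h]
    subst this
    rfl

/-- each lethal 4-set gives 24 ordered quadruples -/
theorem cnt_quad {n : ℕ} (g : Fin n → ℝ) : 24 * (K3.cnt 1 4 g univ : ℝ) ≤
    ∑ a : Fin n, ∑ b : Fin n, ∑ c : Fin n, ∑ d : Fin n,
      (if 1 ≤ g a + g b + g c + g d then (1 : ℝ) else 0) := by
  have h0 : ∀ c : ℝ, (K3.cnt c 0 g univ : ℝ) = if c ≤ 0 then 1 else 0 := by
    intro c
    unfold K3.cnt
    rw [powersetCard_zero, filter_singleton]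
    by_cases hc : c ≤ 0 <;> simp [hc]
  have key : ∀ (k : ℕ) (c : ℝ), ((k : ℝ) + 1) * (K3.cnt c (k + 1) g univ : ℝ)
      ≤ ∑ a : Fin n, (K3.cnt (c - g a) k g univ : ℝ) := by
    intro k c
    exact_mod_cast cnt_succ_le g c k
  have h1 : ∀ c : ℝ, (K3.cnt c 1 g univ : ℝ) ≤ ∑ d : Fin n, (if c - g d ≤ 0 then (1 : ℝ) else 0) := by
    intro c
    have := key 0 c
    simp only [Nat.cast_zero, zero_add, one_mul, h0] at this
    exact this
  have h2 : ∀ c : ℝ, 2 * (K3.cnt c 2 g univ : ℝ) ≤ ∑ e : Fin n, ∑ d : Fin n,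
      (if c - g e - g d ≤ 0 then (1 : ℝ) else 0) := by
    intro c
    have := key 1 c
    push_cast at this
    norm_num at this
    exact this.trans (sum_le_sum fun e _ => h1 _)
  have h3 : ∀ c : ℝ, 6 * (K3.cnt c 3 g univ : ℝ) ≤ ∑ b : Fin n, ∑ e : Fin n, ∑ d : Fin n,
      (if c - g b - g e - g d ≤ 0 then (1 : ℝ) else 0) := by
    intro c
    have := key 2 c
    push_cast at this
    norm_num at this
    have h4 : 2 * ∑ a : Fin n, (K3.cnt (c - g a) 2 g univ : ℝ) ≤ ∑ b : Fin n, ∑ e : Fin n,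
        ∑ d : Fin n, (if c - g b - g e - g d ≤ 0 then (1 : ℝ) else 0) := by
      rw [mul_sum]
      exact sum_le_sum fun b _ => h2 _
    linarith
  have := key 3 1
  push_cast at this
  norm_num at this
  have h4 : 6 * ∑ a : Fin n, (K3.cnt (1 - g a) 3 g univ : ℝ) ≤ ∑ a : Fin n, ∑ b : Fin n,
      ∑ e : Fin n, ∑ d : Fin n, (if 1 - g a - g b - g e - g d ≤ 0 then (1 : ℝ) else 0) := by
    rw [mul_sum]
    exact sum_le_sum fun a _ => h3 _
  have h5 : ∑ a : Fin n, ∑ b : Fin n, ∑ e : Fin n, ∑ d : Fin n,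
      (if 1 - g a - g b - g e - g d ≤ 0 then (1 : ℝ) else 0) = ∑ a : Fin n, ∑ b : Fin n,
      ∑ c : Fin n, ∑ d : Fin n, (if 1 ≤ g a + g b + g c + g d then (1 : ℝ) else 0) := by
    refine sum_congr rfl fun a _ => sum_congr rfl fun b _ => sum_congr rfl fun c _ =>
      sum_congr rfl fun d _ => ?_
    congr 1
    apply propext
    constructor <;> intro h <;> linarith
  rw [← h5]
  linarith

end K4
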