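import Pool.Agent.Helper46.K3.Final

/-! # Quadruples: the distributions `1 / 4` and `1 / 1` -/

set_option autoImplicit false

namespace K4

open Finset K3

theorem cnt_fourth {n m : ℕ} (hm : m ≤ n) :
    m.choose 4 ≤ cnt 1 4 (fun i : Fin n => if i.val < m then (1 : ℝ) / ((4 : ℕ) : ℝ) else 0) univ := by
  unfold cnt
  rw [← card_lt_filter hm, ← card_powersetCard]
  apply card_le_card
  intro V hV
  rw [mem_powersetCard] at hV
  rw [mem_filter, mem_powersetCard]
  refine ⟨⟨subset_univ _, hV.2⟩, ?_⟩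
  rw [card_lt_filter hm]
  have : ∑ i ∈ V, (if i.val < m then (1 : ℝ) / ((4 : ℕ) : ℝ) else 0) = ∑ i ∈ V, (1 : ℝ) / 4 := by
    apply sum_congr rfl
    intro i hi
    have := (mem_filter.1 (hV.1 hi)).2
    simp [this]
  rw [this, sum_const, hV.2]
  norm_num

theorem cnt_one_dist4 {n m : ℕ} (hm : m ≤ n) :
    n.choose 4 ≤ cnt 1 4 (fun i : Fin n => if i.val < m then (1 : ℝ) / ((1 : ℕ) : ℝ) else 0) univ
      + (n - m).choose 4 := by
  classical
  have h1 : n.choose 4 = (powersetCard 4 (univ : Finset (Fin n))).card := by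
    rw [card_powersetCard, card_univ, Fintype.card_fin]
  have h2 : (n - m).choose 4
      = (powersetCard 4 ((univ : Finset (Fin n)).filter (fun i => ¬ i.val < m))).card := by
    rw [card_powersetCard, filter_not, card_sdiff_of_subset (filter_subset _ _), card_lt_filter hm,
      card_univ, Fintype.card_fin]
  rw [h1, h2]
  unfold cnt
  rw [← card_filter_add_card_filter_not (s := powersetCard 4 (univ : Finset (Fin n)))
    (fun V => (1 : ℝ) ≤ ∑ i ∈ V, (if i.val < m then (1 : ℝ) / ((1 : ℕ) : ℝ) else 0))]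
  gcongr
  intro V hV
  rw [mem_filter, mem_powersetCard] at hV
  rw [mem_powersetCard]
  refine ⟨?_, hV.1.2⟩
  intro i hi
  rw [mem_filter]
  refine ⟨mem_univ _, ?_⟩
  intro him
  apply hV.2
  have := single_le_sum (f := fun i : Fin n => (if i.val < m then (1 : ℝ) / ((1 : ℕ) : ℝ) else 0))
    (s := V) (fun j _ => by split_ifs <;> simp) hi
  simpa [him] using this

end K4
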