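import Pool.Agent.Helper46.K4.Window
import Pool.Agent.Helper46.K4.Dist4

/-! # Quadruples: all `n` -/

set_option autoImplicit false

namespace K4

open Finset

/-- Below the window. -/
theorem below {n n0 : ℕ} (hn : n ≤ n0) {h : ℝ} (x : Fin n → ℝ) (hx : ∀ i, 0 ≤ x i)
    (hs : ∑ i, x i ≤ h) (c : ℕ)
    (H : ∀ y : Fin n0 → ℝ, (∀ i, 0 ≤ y i) → ∑ i, y i ≤ h → K3.cnt 1 4 y univ ≤ c) :
    K3.cnt 1 4 x univ ≤ c := by
  classical
  induction n0, hn using Nat.le_induction with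
  | base => exact H x hx hs
  | succ m hm ih =>
    apply ih
    intro y hy hys
    have h1 := H (Fin.snoc y 0) (by
      intro i
      refine Fin.lastCases ?_ (fun j => ?_) i
      · simp
      · simp [hy j]) (by
      rw [Fin.sum_univ_castSucc]
      simpa using hys)
    have h2 := cnt_add_zero (Fin.snoc y 0 : Fin (m + 1) → ℝ) (Fin.last m) (by simp)
    rw [h2] at h1
    have h3 : (fun j : Fin m => (Fin.snoc y 0 : Fin (m + 1) → ℝ) ((Fin.last m).succAbove j)) = y := by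
      funext j
      rw [Fin.succAbove_last]
      simp
    rw [h3] at h1
    omega

/-- Above the window. -/
theorem above {n1 : ℕ} {h : ℝ} (hh : 3000 ≤ h) (hn1 : 4 * h + h / 4 ≤ n1)
    (H : ∀ y : Fin n1 → ℝ, (∀ i, 0 ≤ y i) → ∑ i, y i ≤ h →
      K3.cnt 1 4 y univ + (n1 - ⌊h⌋₊).choose 4 ≤ n1.choose 4) (n : ℕ) (hn : n1 ≤ n) :
    ∀ y : Fin n → ℝ, (∀ i, 0 ≤ y i) → ∑ i, y i ≤ h →
      K3.cnt 1 4 y univ + (n - ⌊h⌋₊).choose 4 ≤ n.choose 4 := by
  classical
  induction n, hn using Nat.le_induction with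
  | base => exact H
  | succ m hm ih =>
    intro y hy hys
    obtain ⟨L, g, w, T, hL, hg, hw, hS, heq, hT, hgT, hTy, hcnt⟩ := exists_cover y hy
    have hmr : (n1 : ℝ) ≤ m := by exact_mod_cast hm
    have hsupp := supp_le L hL g w hw heq hT
    have hzero : ∃ i, g i = 0 := by
      by_contra hcon
      push Not at hcon
      have h1 : (univ.filter (fun i => g i ≠ 0)) = (univ : Finset (Fin (m + 1))) := by
        rw [filter_eq_self]
        intro i _
        exact hcon i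
      rw [h1, card_univ, Fintype.card_fin] at hsupp
      push_cast at hsupp
      linarith
    obtain ⟨i, hi⟩ := hzero
    have hadd := cnt_add_zero g i hi
    have hgs : ∑ j, g (i.succAbove j) ≤ h := by
      have h1 := Fin.sum_univ_succAbove g i
      rw [hi, zero_add] at h1
      rw [← h1, hgT]
      exact hTy.trans hys
    have h4 := ih (fun j => g (i.succAbove j)) (fun j => hg _) hgs
    have h3 := triples_far (n := m) (h := h) (by linarith) (by linarith)
      (fun j => g (i.succAbove j)) (fun j => hg _) hgs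
    have hfl : (⌊h⌋₊ : ℝ) ≤ h := Nat.floor_le (by linarith)
    have hsm : ⌊h⌋₊ ≤ m := by
      have : (⌊h⌋₊ : ℝ) ≤ m := by linarith
      exact_mod_cast this
    have e1 : (m + 1).choose 4 = m.choose 3 + m.choose 4 := Nat.choose_succ_succ' m 3
    have e2 : (m + 1 - ⌊h⌋₊).choose 4 = (m - ⌊h⌋₊).choose 3 + (m - ⌊h⌋₊).choose 4 := by
      rw [show m + 1 - ⌊h⌋₊ = (m - ⌊h⌋₊) + 1 by omega]
      exact Nat.choose_succ_succ' _ 3
    omega

/-- the bound for all `n` greater than `4 h` -/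
theorem all_n {n : ℕ} {h : ℝ} (hh : 3000 ≤ h) (x : Fin n → ℝ)
    (hx : ∀ i, 0 ≤ x i) (hs : ∑ i, x i ≤ h) (hn : ⌊4 * h⌋₊ < n) :
    K3.cnt 1 4 x univ ≤ ⌊4 * h⌋₊.choose 4 ∨
      K3.cnt 1 4 x univ + (n - ⌊h⌋₊).choose 4 ≤ n.choose 4 := by
  have hn4 : 4 * h < n := by
    have h1 : 4 * h < (⌊4 * h⌋₊ : ℝ) + 1 := Nat.lt_floor_add_one _
    have h2 : ((⌊4 * h⌋₊ : ℕ) : ℝ) + 1 ≤ n := by exact_mod_cast hn
    linarith
  rcases lt_or_ge (n : ℝ) (40 / 9 * h) with h1 | h1
  · left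
    -- below the window
    set n0 := ⌈40 / 9 * h⌉₊ with hn0
    have e1 : 40 / 9 * h ≤ n0 := Nat.le_ceil _
    have e2 : (n0 : ℝ) < 40 / 9 * h + 1 := Nat.ceil_lt_add_one (by linarith)
    have e3 : n ≤ n0 := by
      have : (n : ℝ) < n0 := by linarith
      exact_mod_cast this.le
    apply below e3 x hx hs
    intro y hy hys
    rcases window hh e1 (by linarith) y hy hys with h2 | h2
    · exact h2
    · have h3 := num_P1 (h := h) (by linarith) (n := n0) (by linarith) e2.le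
      omega
  · rcases le_or_gt (n : ℝ) (9 / 2 * h) with h2 | h2
    · exact window hh h1 h2 x hx hs
    · right
      set n1 := ⌊9 / 2 * h⌋₊ with hn1
      have e1 : (n1 : ℝ) ≤ 9 / 2 * h := Nat.floor_le (by linarith)
      have e2 : 9 / 2 * h < (n1 : ℝ) + 1 := Nat.lt_floor_add_one _
      have e3 : n1 ≤ n := by
        have : (n1 : ℝ) ≤ n := by linarith
        exact_mod_cast this
      refine above hh (by linarith) ?_ n e3 x hx hs
      intro y hy hys
      rcases window hh (by linarith) e1 y hy hys with h3 | h3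
      · have h4 := num_P2 (h := h) (by linarith) (n := n1) (by linarith) e1
        omega
      · exact h3

/-- The Kikuta-Ruckle statement for `k = 4` and `h ≥ 3000`. -/
theorem quad (n : ℕ) (h : ℝ) (hh : 3000 ≤ h) :
    ∃ j : ℕ, (j = 1 ∨ j = 4) ∧ ∀ x : Fin n → ℝ, (∀ i, 0 ≤ x i) → ∑ i, x i = h →
      Set.ncard {V : Finset (Fin n) | V.card = 4 ∧ (1 : ℝ) ≤ ∑ i ∈ V, x i} ≤
      Set.ncard {V : Finset (Fin n) | V.card = 4 ∧ (1 : ℝ) ≤ ∑ i ∈ V,
            (if i.val < min n ⌊h * (j : ℝ)⌋₊ then (1 : ℝ) / (j : ℝ) else 0)} := by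
  have e4 : ⌊h * ((4 : ℕ) : ℝ)⌋₊ = ⌊4 * h⌋₊ := by
    congr 1
    push_cast
    ring
  have e1 : ⌊h * ((1 : ℕ) : ℝ)⌋₊ = ⌊h⌋₊ := by
    congr 1
    push_cast
    ring
  rcases Nat.lt_or_ge ⌊4 * h⌋₊ n with hn | hn
  · have hs : ⌊h⌋₊ ≤ n := by
      have : ⌊h⌋₊ ≤ ⌊4 * h⌋₊ := Nat.floor_le_floor (by linarith)
      omega
    rcases le_total (n.choose 4) (⌊4 * h⌋₊.choose 4 + (n - ⌊h⌋₊).choose 4) with hm | hm
    · refine ⟨4, Or.inr rfl, ?_⟩
      intro x hx hsum
      rw [K3.ncard_eq_cnt, K3.ncard_eq_cnt, e4, min_eq_right hn.le]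
      refine le_trans ?_ (cnt_fourth hn.le)
      rcases all_n hh x hx hsum.le hn with h1 | h1
      · exact h1
      · omega
    · refine ⟨1, Or.inl rfl, ?_⟩
      intro x hx hsum
      rw [K3.ncard_eq_cnt, K3.ncard_eq_cnt, e1, min_eq_right hs]
      have h2 := cnt_one_dist4 hs
      rcases all_n hh x hx hsum.le hn with h1 | h1
      · omega
      · omega
  · refine ⟨4, Or.inr rfl, ?_⟩
    intro x hx hsum
    rw [K3.ncard_eq_cnt, K3.ncard_eq_cnt, e4, min_eq_left hn]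
    refine le_trans ?_ (cnt_fourth le_rfl)
    have := K3.cnt_le_choose 1 4 x univ
    rwa [card_univ, Fintype.card_fin] at this

end K4
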