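import Pool.Agent.Helper46.K3.Basic

/-! # Quadruples: almost all doses equal to `1 / 4` -/

set_option autoImplicit false

namespace K4

open Finset

theorem choose_four_add (a d : ℕ) : a.choose 4 + d * a.choose 3 ≤ (a + d).choose 4 := by
  induction d with
  | zero => simp
  | succ d ih =>
    have h1 : (a + (d + 1)).choose 4 = (a + d).choose 3 + (a + d).choose 4 := by
      rw [← add_assoc, Nat.choose_succ_succ' (a + d) 3]
    have h2 : a.choose 3 ≤ (a + d).choose 3 := Nat.choose_le_choose 3 (by omega)
    rw [h1]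
    nlinarith

/-- sets of size four through `i` in a family that avoids the sets `{i} ∪ W`, `W ⊆ M` -/
theorem through_le {n : ℕ} (M : Finset (Fin n)) (i : Fin n) (hi : i ∉ M)
    (Q : Finset (Finset (Fin n))) (hQ : ∀ V ∈ Q, V.card = 4)
    (hQM : ∀ V ∈ Q, i ∈ V → ¬ V.erase i ⊆ M) :
    (Q.filter (fun V => i ∈ V)).card + M.card.choose 3 ≤ (n - 1).choose 3 := by
  classical
  have h1 : (Q.filter (fun V => i ∈ V)).card ≤
      (((univ : Finset (Fin n)).erase i).powersetCard 3 \ M.powersetCard 3).card := by
    apply card_le_card_of_injOn (fun V => V.erase i)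
    · intro V hV
      rw [mem_coe, mem_filter] at hV
      rw [mem_coe, mem_sdiff, mem_powersetCard, mem_powersetCard]
      refine ⟨⟨erase_subset_erase i (subset_univ V), ?_⟩, ?_⟩
      · rw [card_erase_of_mem hV.2, hQ V hV.1]
      · intro h
        exact hQM V hV.1 hV.2 h.1
    · intro V hV W hW h
      rw [mem_coe, mem_filter] at hV hW
      simp only at h
      rw [← insert_erase hV.2, ← insert_erase hW.2, h]
  have h2 : M.powersetCard 3 ⊆ ((univ : Finset (Fin n)).erase i).powersetCard 3 := by
    apply powersetCard_mono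
    intro j hj
    rw [mem_erase]
    exact ⟨fun h => hi (h ▸ hj), mem_univ j⟩
  rw [card_sdiff_of_subset h2, card_powersetCard, card_powersetCard, card_erase_of_mem (mem_univ i),
    card_univ, Fintype.card_fin] at h1
  have h3 := card_le_card h2
  rw [card_powersetCard, card_powersetCard, card_erase_of_mem (mem_univ i),
    card_univ, Fintype.card_fin] at h3
  omega

theorem uni {n N : ℕ} (g : Fin n → ℝ) (hg : ∀ i, 0 ≤ g i) (hsum : 4 * ∑ i, g i < N + 1)
    (hM : 2 * (n - 1).choose 3 ≤ 3 * ((univ.filter (fun i => g i = 1 / 4)).card).choose 3) :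
    K3.cnt 1 4 g univ ≤ N.choose 4 := by
  classical
  set M := univ.filter (fun i => g i = 1 / 4) with hMdef
  set B := univ.filter (fun i => 1 / 4 < g i) with hBdef
  set G := univ.filter (fun i => 1 / 4 ≤ g i) with hGdef
  have hG : G.card = M.card + B.card := by
    have h1 : G = M ∪ B := by
      ext i
      simp only [hGdef, hMdef, hBdef, mem_filter, mem_univ, true_and, mem_union]
      constructor
      · intro h
        rcases h.eq_or_lt with h | h
        · exact Or.inl h.symm
        · exact Or.inr h
      · rintro (h | h)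
        · exact h.ge
        · exact h.le
    rw [h1, card_union_of_disjoint]
    rw [disjoint_left]
    intro i hi hi'
    simp only [hMdef, hBdef, mem_filter, mem_univ, true_and] at hi hi'
    linarith
  -- the excess
  set e : Fin n → ℝ := fun i => 4 * g i - (if 1 / 4 ≤ g i then 1 else 0) with hedef
  have he0 : ∀ i, 0 ≤ e i := by
    intro i
    simp only [hedef]
    split_ifs with h
    · linarith
    · linarith [hg i]
  have hesum : ∑ i, e i = 4 * ∑ i, g i - G.card := by
    simp only [hedef]
    rw [sum_sub_distrib, ← mul_sum]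
    congr 1
    rw [hGdef, sum_ite, sum_const_zero, add_zero, sum_const, nsmul_eq_mul, mul_one]
  have hGN : G.card ≤ N := by
    have h1 : 0 ≤ ∑ i, e i := sum_nonneg fun i _ => he0 i
    have h2 : (G.card : ℝ) < N + 1 := by linarith
    have h3 : G.card < N + 1 := by exact_mod_cast h2
    omega
  obtain ⟨d, hd⟩ := Nat.exists_eq_add_of_le hGN
  have hed : ∑ i, e i < d + 1 := by
    have h1 : (N : ℝ) = G.card + d := by exact_mod_cast hd
    linarith
  -- the two kinds of lethal sets
  set P := ((univ : Finset (Fin n)).powersetCard 4).filter (fun V => (1 : ℝ) ≤ ∑ i ∈ V, g i)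
    with hPdef
  set Q := P.filter (fun V => ¬ V ⊆ G) with hQdef
  have hsplit : K3.cnt 1 4 g univ = (P.filter (fun V => V ⊆ G)).card + Q.card := by
    unfold K3.cnt
    rw [hQdef, card_filter_add_card_filter_not]
  have hfirst : (P.filter (fun V => V ⊆ G)).card ≤ G.card.choose 4 := by
    rw [← card_powersetCard]
    apply card_le_card
    intro V hV
    rw [mem_filter, hPdef, mem_filter, mem_powersetCard] at hV
    rw [mem_powersetCard]
    exact ⟨hV.2, hV.1.1.2⟩
  have hQ4 : ∀ V ∈ Q, V.card = 4 ∧ (1 : ℝ) ≤ ∑ i ∈ V, g i ∧ ¬ V ⊆ G := by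
    intro V hV
    rw [hQdef, mem_filter, hPdef, mem_filter, mem_powersetCard] at hV
    exact ⟨hV.1.1.2, hV.1.2, hV.2⟩
  have heV : ∀ V ∈ Q, (1 : ℝ) ≤ ∑ i ∈ V, e i := by
    intro V hV
    obtain ⟨h1, h2, h3⟩ := hQ4 V hV
    have h4 : ∑ i ∈ V, e i = 4 * ∑ i ∈ V, g i - (V.filter (fun i => 1 / 4 ≤ g i)).card := by
      simp only [hedef]
      rw [sum_sub_distrib, ← mul_sum]
      congr 1
      rw [sum_ite, sum_const_zero, add_zero, sum_const, nsmul_eq_mul, mul_one]
    have h5 : (V.filter (fun i => 1 / 4 ≤ g i)).card ≤ 3 := by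
      have h6 : (V.filter (fun i => 1 / 4 ≤ g i)).card < V.card := by
        apply card_lt_card
        rw [filter_ssubset]
        rw [not_subset] at h3
        obtain ⟨i, hi, hi'⟩ := h3
        refine ⟨i, hi, ?_⟩
        intro h7
        exact hi' (by rw [hGdef, mem_filter]; exact ⟨mem_univ i, h7⟩)
      omega
    have h6 : ((V.filter (fun i => 1 / 4 ≤ g i)).card : ℝ) ≤ 3 := by exact_mod_cast h5
    rw [h4]
    linarith
  -- counting
  have hK : ∀ i, 0 < e i →
      (((Q.filter (fun V => i ∈ V)).card : ℕ) : ℝ) ≤ (n - 1).choose 3 - M.card.choose 3 := by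
    intro i hi
    have hiM : i ∉ M := by
      intro h
      rw [hMdef, mem_filter] at h
      simp only [hedef] at hi
      rw [h.2] at hi
      norm_num at hi
    have h1 := through_le M i hiM Q (fun V hV => (hQ4 V hV).1) (by
      intro V hV hiV hsub
      obtain ⟨h1, h2, h3⟩ := hQ4 V hV
      have h4 : i ∉ G := by
        intro hiG
        apply h3
        intro j hj
        by_cases hji : j = i
        · rw [hji]; exact hiG
        · have := hsub (mem_erase.2 ⟨hji, hj⟩)
          rw [hMdef, mem_filter] at this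
          rw [hGdef, mem_filter]
          exact ⟨mem_univ j, this.2.ge⟩
      have h5 : ∑ j ∈ V, g j = g i + ∑ j ∈ V.erase i, g j := (add_sum_erase V g hiV).symm
      have h6 : ∑ j ∈ V.erase i, g j = 3 / 4 := by
        have h61 : ∀ j ∈ V.erase i, g j = 1 / 4 := by
          intro j hj
          have := hsub hj
          rw [hMdef, mem_filter] at this
          exact this.2
        rw [sum_eq_card_nsmul h61, card_erase_of_mem hiV, h1]
        norm_num
      have h7 : ¬ 1 / 4 ≤ g i := fun h => h4 (by rw [hGdef, mem_filter]; exact ⟨mem_univ i, h⟩)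
      rw [h5, h6] at h2
      apply h7
      linarith)
    have h2 : (((Q.filter (fun V => i ∈ V)).card : ℕ) : ℝ) + M.card.choose 3 ≤ (n - 1).choose 3 := by
      exact_mod_cast h1
    linarith
  have hcount : (Q.card : ℝ) ≤ ((n - 1).choose 3 - M.card.choose 3) * ∑ i, e i := by
    calc (Q.card : ℝ) = ∑ V ∈ Q, (1 : ℝ) := by simp
      _ ≤ ∑ V ∈ Q, ∑ i ∈ V, e i := sum_le_sum heV
      _ = ∑ i, e i * (Q.filter (fun V => i ∈ V)).card := by
          have h1 : ∀ V ∈ Q, ∑ i ∈ V, e i = ∑ i, if i ∈ V then e i else 0 := by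
            intro V _
            rw [sum_ite_mem, univ_inter]
          rw [sum_congr rfl h1, sum_comm]
          refine sum_congr rfl fun i _ => ?_
          rw [← sum_filter, sum_const, nsmul_eq_mul, mul_comm]
      _ ≤ ∑ i, e i * ((n - 1).choose 3 - M.card.choose 3) := by
          refine sum_le_sum fun i _ => ?_
          rcases (he0 i).eq_or_lt with h1 | h1
          · rw [← h1]; simp
          · exact mul_le_mul_of_nonneg_left (hK i h1) (he0 i)
      _ = ((n - 1).choose 3 - M.card.choose 3) * ∑ i, e i := by rw [← sum_mul, mul_comm]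
  rcases Nat.eq_zero_or_pos d with hd0 | hd0
  · -- no set of the second kind
    have hQ0 : Q.card = 0 := by
      rw [card_eq_zero, eq_empty_iff_forall_notMem]
      intro V hV
      have h1 := heV V hV
      have h2 : ∑ i ∈ V, e i ≤ ∑ i, e i :=
        sum_le_sum_of_subset_of_nonneg (subset_univ V) fun i _ _ => he0 i
      rw [hd0] at hed
      push_cast at hed
      linarith
    rw [hsplit, hQ0, add_zero]
    refine hfirst.trans (Nat.choose_le_choose 4 hGN)
  · have hM' : (2 : ℝ) * ((n - 1).choose 3 : ℕ) ≤ 3 * (M.card.choose 3 : ℕ) := by exact_mod_cast hM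
    have hd1 : (1 : ℝ) ≤ d := by exact_mod_cast hd0
    have h3 : (Q.card : ℝ) ≤ d * M.card.choose 3 := by
      by_cases hneg : ((n - 1).choose 3 : ℝ) - M.card.choose 3 ≤ 0
      · have h4 : 0 ≤ ∑ i, e i := sum_nonneg fun i _ => he0 i
        have h5 : (0 : ℝ) ≤ M.card.choose 3 := Nat.cast_nonneg _
        have h6 := mul_nonneg (Nat.cast_nonneg (α := ℝ) d) h5
        have h7 : (((n - 1).choose 3 : ℝ) - M.card.choose 3) * ∑ i, e i ≤ 0 :=
          mul_nonpos_of_nonpos_of_nonneg hneg h4
        linarith
      · push Not at hneg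
        have h4 := mul_le_mul_of_nonneg_left hed.le hneg.le
        have h5 : (((n - 1).choose 3 : ℝ) - M.card.choose 3) ≤ M.card.choose 3 / 2 := by linarith
        have h6 : (((n - 1).choose 3 : ℝ) - M.card.choose 3) * (d + 1) ≤
            (M.card.choose 3 / 2) * (2 * d) := by
          apply mul_le_mul h5 (by linarith) (by linarith) (by positivity)
        nlinarith
    have h4 : Q.card ≤ d * M.card.choose 3 := by exact_mod_cast h3
    have h5 : M.card.choose 3 ≤ G.card.choose 3 := Nat.choose_le_choose 3 (by omega)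
    have h6 := choose_four_add G.card d
    rw [← hd] at h6
    rw [hsplit]
    nlinarith [Nat.mul_le_mul_left d h5]

end K4
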