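import Pool.Agent.Helper96.K4.Star
import Pool.Agent.Helper46.K4.Cnt
import Pool.Agent.Helper55.K4.Num
import Pool.Agent.Helper46.K4.Uni
import Pool.Agent.Helper80.K4.Unit
import Pool.Agent.Helper44.K4.Bound
import Pool.Agent.Helper40.K4.Slope
import Pool.Agent.Helper83.K4.Ana
import Pool.Agent.Helper83.K4.Zero
import Pool.Agent.Helper72.K4.PhiLem

/-! # Quadruples: all rows together -/

set_option autoImplicit false

namespace K4

open Finset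

/-- `u`, `f` = shares of the matching on unit and on uniform sets -/
theorem bound {n : ℕ} (hn : 0 < n) (L : Finset (Finset (Fin n))) (hL : ∀ S ∈ L, S.card = 4)
    (g : Fin n → ℝ) (hg : ∀ i, 0 ≤ g i)
    (w : Finset (Fin n) → ℝ) (hw : ∀ S, 0 ≤ w S) (hS : ∀ S, w S ≠ 0 → S ∈ L ∧ ∑ i ∈ S, g i = 1)
    (heq : ∀ i, g i ≠ 0 → ∑ S ∈ L with i ∈ S, w S = 1)
    {H : ℝ} (hH : ∑ S ∈ L, w S = H) (hpos : 0 < H) (hm : H / n ≤ 9 / 40) :
    ∃ u f : ℝ, 0 ≤ u ∧ 0 ≤ f ∧ u + f ≤ 1 ∧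
      ((univ.filter (fun i => g i = 1)).card : ℝ) = u * H ∧
      4 * (f * H) ≤ ((univ.filter (fun i => g i = 1 / 4)).card : ℝ) ∧
      ∑ a : Fin n, ∑ b : Fin n, ∑ c : Fin n, ∑ d : Fin n,
        (if 1 ≤ g a + g b + g c + g d then (1 : ℝ) else 0) ≤
      (n : ℝ) ^ 4 * (u ^ 4 * (1 - (1 - H / n) ^ 4) + f ^ 4 * (4 * (H / n)) ^ 4 +
        (1 - u ^ 4 - f ^ 4) * (31 / 50)) :=
  bound_of star (fun v h m => Phi_unif v h m) (fun v h0 h1 h m => Phi_unit v h0 h1 h m)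
    hn L hL g hg w hw hS heq hH hpos hm

end K4
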