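import Pool.Agent.Helper46.K4.Rows

/-! # Quadruples: the window `40 h / 9 ≤ n ≤ 9 h / 2` -/

set_option autoImplicit false

namespace K4

open Finset

/-- A distribution can be replaced by one with an optimal cover structure. -/
theorem exists_cover {n : ℕ} (x : Fin n → ℝ) (hx : ∀ i, 0 ≤ x i) :
    ∃ (L : Finset (Finset (Fin n))) (g : Fin n → ℝ) (w : Finset (Fin n) → ℝ) (H : ℝ),
      (∀ S ∈ L, S.card = 4) ∧ (∀ i, 0 ≤ g i) ∧ (∀ S, 0 ≤ w S) ∧
      (∀ S, w S ≠ 0 → S ∈ L ∧ ∑ i ∈ S, g i = 1) ∧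
      (∀ i, g i ≠ 0 → ∑ S ∈ L with i ∈ S, w S = 1) ∧
      ∑ S ∈ L, w S = H ∧ ∑ i, g i = H ∧ H ≤ ∑ i, x i ∧
      K3.cnt 1 4 x univ ≤ K3.cnt 1 4 g univ := by
  classical
  set L := ((univ : Finset (Fin n)).powersetCard 4).filter (fun V => (1 : ℝ) ≤ ∑ i ∈ V, x i)
    with hLdef
  have hL4 : ∀ S ∈ L, S.card = 4 ∧ (1 : ℝ) ≤ ∑ i ∈ S, x i := by
    intro S hS
    rw [hLdef, mem_filter, mem_powersetCard] at hS
    exact ⟨hS.1.2, hS.2⟩
  obtain ⟨g, w, h1, h2, h3, h4, h5, h6, h7, h8⟩ := duality L (fun S hS => by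
    rw [← card_pos, (hL4 S hS).1]; norm_num)
  refine ⟨L, g, w, ∑ S ∈ L, w S, fun S hS => (hL4 S hS).1, h1, h3, h4, h6, rfl, h7, ?_, ?_⟩
  · rw [← h7]
    exact h8 x hx (fun S hS => (hL4 S hS).2)
  · unfold K3.cnt
    apply card_le_card
    intro V hV
    have hV' : V ∈ L := hV
    rw [mem_filter] at hV ⊢
    exact ⟨hV.1, h2 V hV'⟩

theorem window {n : ℕ} {h : ℝ} (hh : 3000 ≤ h) (hn1 : 40 / 9 * h ≤ n) (hn2 : (n : ℝ) ≤ 9 / 2 * h)
    (x : Fin n → ℝ) (hx : ∀ i, 0 ≤ x i) (hs : ∑ i, x i ≤ h) :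
    K3.cnt 1 4 x univ ≤ ⌊4 * h⌋₊.choose 4 ∨
      K3.cnt 1 4 x univ + (n - ⌊h⌋₊).choose 4 ≤ n.choose 4 := by
  obtain ⟨L, g, w, H, hL, hg, hw, hS, heq, hH, hgH, hHx, hcnt⟩ := exists_cover x hx
  by_contra hcon
  push Not at hcon
  obtain ⟨hc1, hc2⟩ := hcon
  have hc1' : ⌊4 * h⌋₊.choose 4 < K3.cnt 1 4 g univ := hc1.trans_le hcnt
  have hc2' : n.choose 4 < K3.cnt 1 4 g univ + (n - ⌊h⌋₊).choose 4 := by omega
  have hHh : H ≤ h := hHx.trans hs
  have hn0 : (0 : ℝ) < n := by linarith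
  have hnn : 0 < n := by exact_mod_cast hn0
  have hn4 : 4 * h ≤ n := by linarith
  have hfl : (⌊h⌋₊ : ℝ) ≤ h := Nat.floor_le (by linarith)
  have hfl4 : 4 * h < (⌊4 * h⌋₊ : ℝ) + 1 := Nat.lt_floor_add_one _
  -- the matching is not zero
  have hpos : 0 < H := by
    by_contra hneg
    push Not at hneg
    have h1 : ∀ i ∈ (univ : Finset (Fin n)), g i = 0 := by
      rw [← sum_eq_zero_iff_of_nonneg (fun i _ => hg i)]
      exact le_antisymm (by rw [hgH]; exact hneg) (sum_nonneg fun i _ => hg i)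
    have h2 : K3.cnt 1 4 g univ = 0 := by
      apply K3.cnt_eq_zero
      intro V _ _
      rw [sum_eq_zero (fun i _ => h1 i (mem_univ i))]
      norm_num
    omega
  have hm : H / n ≤ 9 / 40 := by
    rw [div_le_iff₀ hn0]
    linarith
  obtain ⟨u, f, hu, hf, huf, hA, hM, hT⟩ := bound hnn L hL g hg w hw hS heq hH hpos hm
  have hQ := cnt_quad g
  set Q := ∑ a : Fin n, ∑ b : Fin n, ∑ c : Fin n, ∑ d : Fin n,
      (if 1 ≤ g a + g b + g c + g d then (1 : ℝ) else 0) with hQdef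
  have hl1 := low_unif (h := h) (by linarith)
  have hl2 := low_unit (h := h) (by linarith) hn4
  have hc1r : ((⌊4 * h⌋₊.choose 4 : ℕ) : ℝ) ≤ K3.cnt 1 4 g univ := by exact_mod_cast hc1'.le
  have hc2r : ((n.choose 4 : ℕ) : ℝ) ≤ K3.cnt 1 4 g univ + ((n - ⌊h⌋₊).choose 4 : ℕ) := by
    exact_mod_cast hc2'.le
  have hn4pos : (0 : ℝ) < (n : ℝ) ^ 4 := by positivity
  have hana := ana (m := h / n) (y := H / n) (u := u) (f := f) (T := Q / (n : ℝ) ^ 4)
    (δ := 10 / n) (by rw [le_div_iff₀ hn0]; linarith) (by rw [div_le_iff₀ hn0]; linarith)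
    (div_nonneg hpos.le hn0.le) (by gcongr) hu hf huf (by positivity)
    (by rw [div_le_iff₀ hn0]; linarith)
    (by
      rw [le_div_iff₀ hn4pos]
      have e1 : ((4 * (h / n)) ^ 4 - 10 / n) * (n : ℝ) ^ 4 = (4 * h) ^ 4 - 10 * (n : ℝ) ^ 3 := by
        field_simp
      rw [e1]
      have e2 : (4 * h) ^ 3 ≤ (n : ℝ) ^ 3 := by gcongr
      linarith)
    (by
      rw [le_div_iff₀ hn4pos]
      have e1 : (1 - (1 - h / n) ^ 4 - 10 / n) * (n : ℝ) ^ 4
          = (n : ℝ) ^ 4 - (n - h) ^ 4 - 10 * (n : ℝ) ^ 3 := by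
        field_simp
      rw [e1]
      linarith)
    (by
      rw [div_le_iff₀ hn4pos]
      linarith)
  rcases hana with ⟨hf1, hy⟩ | ⟨hu1, hy⟩
  · -- uniform case
    have hy' : (1 - 1 / 1000) * h ≤ H := by
      have e1 : (1 - 1 / 1000) * (h / n) * n = (1 - 1 / 1000) * h := by field_simp
      have e2 : H / n * n = H := by field_simp
      rw [← e1, ← e2]
      exact mul_le_mul_of_nonneg_right hy hn0.le
    have hM' : 4 * (985 / 1000) * (1 - 1 / 1000) * h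
        ≤ ((univ.filter (fun i => g i = 1 / 4)).card : ℝ) := by
      refine le_trans ?_ hM
      have := mul_le_mul hf1 hy' (by linarith) hf
      linarith
    have h1 := uni (N := ⌊4 * h⌋₊) g hg (by rw [hgH]; linarith) (num_U hh hn2 hM')
    omega
  · -- unit case
    have hy' : 97 / 100 * h ≤ H := by
      have e1 : 97 / 100 * (h / n) * n = 97 / 100 * h := by field_simp
      have e2 : H / n * n = H := by field_simp
      rw [← e1, ← e2]
      exact mul_le_mul_of_nonneg_right hy hn0.le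
    have hA' : 985 / 1000 * (97 / 100 * h) ≤ ((univ.filter (fun i => g i = 1)).card : ℝ) := by
      rw [hA]
      exact mul_le_mul hu1 hy' (by linarith) hu
    have hsub : ((univ.filter (fun i => g i = 1)).card : ℝ)
        ≤ ((univ.filter (fun i => 1 ≤ g i)).card : ℝ) := by
      have : (univ.filter (fun i => g i = 1)).card ≤ (univ.filter (fun i => 1 ≤ g i)).card := by
        apply card_le_card
        intro i hi
        rw [mem_filter] at hi ⊢
        exact ⟨hi.1, hi.2.ge⟩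
      exact_mod_cast this
    have hsn : ⌊h⌋₊ ≤ n := by
      have : (⌊h⌋₊ : ℝ) ≤ n := by linarith
      exact_mod_cast this
    have h1 := unit (s := ⌊h⌋₊) hsn g hg (by
      rw [hgH]
      exact hHh.trans_lt (Nat.lt_floor_add_one _)) (by
      have : (60 : ℝ) * ⌊h⌋₊ ≤ n + 59 * ((univ.filter (fun i => 1 ≤ g i)).card : ℝ) := by
        linarith
      exact_mod_cast this)
    omega

end K4
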